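import Pool.Agent.N579.CR.Main

/-!
# Exact asymptotics of the failure probability of colour refinement

Colour refinement (the one-dimensional Weisfeiler-Leman method) decides isomorphism with a graph `G`
correctly if it identifies `G`. Babai and Kucera (1979) proved that this holds for all but an
`exp (- c n)` fraction of the graphs with `n` vertices. The theorem determines the fraction of the
exceptions up to an exponentially small relative error: it is

`(32 / 3) n (n - 1) (n - 2) (n - 3) (n - 4) (n - 5) / 8 ^ n + O (n ^ 14 / 16 ^ n)`.

Proof. The stable partition of `G` is the coarsest equitable partition. Its defect is the number of
vertices minus the number of classes. An equitable partition of defect `d` imposes `d (n - 2 d)`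
independent conditions of one bit each (and about `d (n - d) / 2` conditions if `d` is large); together
with an estimate for the graphs with at most `49` different degrees this shows that only
`O (n ^ 8 / 16 ^ n)` of all graphs have a stable partition of defect at least four. If the defect is
at most three then a case distinction shows that `G` is identified unless the nontrivial classes
are three pairs which are joined by perfect matchings to each other; and in this case one of the
three matchings can be exchanged, which gives a graph with the same colours that is not isomorphic to
`G` (the two graphs differ like a hexagon and two triangles). The number of the graphs with such a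
pattern on given three pairs is exactly `2 ^ (n (n - 1) / 2 - 3 n + 9)`.
-/

set_option autoImplicit false

namespace Pool.Agent.Results.MP_128e7d_lc.ColourRefinementFailure

open Pool.Agent.N579.CR

theorem result : ∃ C : ℝ, ∀ n : ℕ, 1 ≤ n →
    |({G : SimpleGraph (Fin n) | ¬ CRIdentified G}.ncard : ℝ) / 2 ^ n.choose 2 -
        32 / 3 * (n.descFactorial 6 : ℝ) / 8 ^ n| ≤ C * (n : ℝ) ^ 14 / 16 ^ n :=
  main_thm

end Pool.Agent.Results.MP_128e7d_lc.ColourRefinementFailure
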